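import Pool.Agent.H252.MD.Iface
import Pool.Graph.R_pool_sql_team_seeded_620a6dc7.H107_ZS.TMUL

/-!
# Positivity from positivity of the compressions (S_POSF), for helper252 (MP_c00d13_an)
-/

set_option autoImplicit false

namespace Pool.Agent.H200.MD

open Topology
open Pool.Agent.H107ZS Pool.Agent.H327R4.Pure Pool.Agent.H252.MD
open scoped CStarAlgebra ComplexOrder

section

variable {X : Type} [TopologicalSpace X] [CompactSpace X] [MulAction Zm X]
  [ContinuousConstSMul Zm X] {B : Type} [CStarAlgebra B] {n : ℕ}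
  {ι : C(X, ℂ) →⋆ₐ[ℂ] B} {u : Zm →* unitary B} {e : Fin n → Fin n → B}
  {E : Fin n → Fin n → B →L[ℂ] C(X, ℂ)}

/-- finite sums of monomials have finite propagation -/
theorem exists_prp (c : Fin n × Fin n × Zm →₀ C(X, ℂ)) :
    ∃ K : Finset Zm, Prp ι u e K (c.sum fun p f => ι f * e p.1 p.2.1 * (u p.2.2 : B)) := by
  classical
  induction c using Finsupp.induction_linear with
  | zero => exact ⟨∅, by rw [Finsupp.sum_zero_index]; exact Prp.zero⟩
  | add c c' hc hc' =>
    obtain ⟨K, hK⟩ := hc
    obtain ⟨K', hK'⟩ := hc'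
    refine ⟨K ∪ K', ?_⟩
    rw [Finsupp.sum_add_index']
    · exact (hK.mono Finset.subset_union_left).add (hK'.mono Finset.subset_union_right)
    · intro a; simp
    · intro a b₁ b₂; rw [map_add, add_mul, add_mul]
  | single a f =>
    refine ⟨{a.2.2}, ?_⟩
    rw [Finsupp.sum_single_index (by simp)]
    exact Prp.mon (Finset.mem_singleton_self _) f a.1 a.2.1

/-- the window `[-M, M]` -/
def win (M : ℕ) (i : Fin (2 * M + 1)) : Zm := zt (((i : ℕ) : ℤ) - M)

theorem win_inj (M : ℕ) : Function.Injective (win M) := by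
  intro i j h
  have h1 : ((i : ℕ) : ℤ) - M = ((j : ℕ) : ℤ) - M := Multiplicative.ofAdd.injective h
  apply Fin.ext
  omega

theorem exists_win (L : Finset Zm) : ∃ M : ℕ, ∀ g ∈ L, ∃ i, win M i = g := by
  refine ⟨L.sup fun g => (Multiplicative.toAdd g).natAbs, fun g hg => ?_⟩
  have h1 : (Multiplicative.toAdd g).natAbs ≤ L.sup fun g => (Multiplicative.toAdd g).natAbs :=
    Finset.le_sup (f := fun g : Zm => (Multiplicative.toAdd g).natAbs) hg
  generalize (L.sup fun g => (Multiplicative.toAdd g).natAbs) = M at h1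
  refine ⟨⟨((Multiplicative.toAdd g) + M).toNat, by omega⟩, ?_⟩
  unfold win zt
  have h2 : ((((Multiplicative.toAdd g) + M).toNat : ℕ) : ℤ) - M = Multiplicative.toAdd g := by
    omega
  rw [h2]
  rfl

/-- the entries of the compression to `[-M, M]` -/
theorem W_win (h : IsMCross ι u e E) (T : B) (M : ℕ) (x : X) (p q : Fin n × Fin (2 * M + 1)) :
    W u E T (2 * M + 1) (zt (-(M : ℤ)) • x) p q =
      E p.1 q.1 (star (u (win M p.2) : B) * T * (u (win M q.2) : B)) x := by
  unfold W
  rw [← h.E_conj]
  have e1 : ∀ i : Fin (2 * M + 1), (u (zt ((i : ℕ) : ℤ)) : B) * (u (zt (-(M : ℤ))) : B) =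
      (u (win M i) : B) := by
    intro i
    rw [← u_coe_mul]
    congr 2
  rw [← e1, ← e1, star_mul]
  simp only [mul_assoc]

/-- positivity for elements of finite propagation -/
theorem pos_prp (h : IsMCross ι u e E) (T : B) (hT : IsSelfAdjoint T)
    (hW : ∀ (Λ : ℕ) (x : X), (W u E T Λ x).PosSemidef) {L : Finset Zm} {y : B}
    (hy : Prp ι u e L y) (k : Fin n) (x : X) : 0 ≤ E k k (star y * T * y) x := by
  classical
  obtain ⟨M, hM⟩ := exists_win L
  let S : Finset Zm := Finset.univ.image (win M)
  have hS : ∀ g ∈ L, g * 1 ∈ S := by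
    intro g hg
    rw [mul_one]
    obtain ⟨i, rfl⟩ := hM g hg
    exact Finset.mem_image_of_mem _ (Finset.mem_univ i)
  have hsum : ∀ F : Zm → ℂ, ∑ t ∈ S, F t = ∑ i : Fin (2 * M + 1), F (win M i) := fun F =>
    Finset.sum_image fun i _ j _ hij => win_inj M hij
  -- the vector
  let η : Fin n × Fin (2 * M + 1) → ℂ := fun p => E p.1 k (star (u (win M p.2) : B) * y) x
  have h1 : E k k (star y * T * y) x = ∑ i : Fin (2 * M + 1), ∑ j : Fin n,
      E k j (star y * T * (u (win M i) : B)) x * η (j, i) := by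
    have := h.E_mul (star y * T) y L hy 1 1 k k x S hS
    rw [hsum] at this
    simpa [u_coe_one] using this
  have h2 : ∀ (i : Fin (2 * M + 1)) (j : Fin n), E j k (star (u (win M i) : B) * (T * y)) x =
      ∑ i' : Fin (2 * M + 1), ∑ j' : Fin n,
        E j j' (star (u (win M i) : B) * T * (u (win M i') : B)) x * η (j', i') := by
    intro i j
    have := h.E_mul T y L hy (win M i) 1 j k x S hS
    rw [hsum] at this
    simpa [u_coe_one] using this
  have h3 : ∀ (i : Fin (2 * M + 1)) (j : Fin n), E k j (star y * T * (u (win M i) : B)) x =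
      star (E j k (star (u (win M i) : B) * (T * y)) x) := by
    intro i j
    rw [← h.E_star]
    congr 2
    simp only [star_mul, star_star, hT.star_eq, mul_assoc]
  have h4 : E k k (star y * T * y) x =
      star (star η ⬝ᵥ (W u E T (2 * M + 1) (zt (-(M : ℤ)) • x)).mulVec η) := by
    rw [h1]
    simp only [dotProduct, Matrix.mulVec, star_sum, Fintype.sum_prod_type_right]
    refine Finset.sum_congr rfl fun i _ => Finset.sum_congr rfl fun j _ => ?_
    rw [h3, h2]
    simp only [W_win h, star_mul', star_sum, Pi.star_apply, star_star]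
    rw [mul_comm]
  rw [h4]
  have h5 := (hW (2 * M + 1) (zt (-(M : ℤ)) • x)).dotProduct_mulVec_nonneg η
  rwa [star_nonneg_iff]

/-- positivity for all elements -/
theorem pos_all (h : IsMCross ι u e E) (T : B) (hT : IsSelfAdjoint T)
    (hW : ∀ (Λ : ℕ) (x : X), (W u E T Λ x).PosSemidef) (y : B) (k : Fin n) (x : X) :
    0 ≤ E k k (star y * T * y) x := by
  have hcl : IsClosed {y : B | 0 ≤ E k k (star y * T * y) x} := by
    refine isClosed_le continuous_const ?_
    have h1 : Continuous fun y : B => E k k (star y * T * y) :=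
      (E k k).continuous.comp (by fun_prop)
    exact (continuous_eval_const x).comp h1
  refine isClosed_property h.dense hcl (fun c => ?_) y
  obtain ⟨K, hK⟩ := exists_prp (ι := ι) (u := u) (e := e) c
  exact pos_prp h T hT hW hK k x

end

/-- positivity in `B` from positivity of all finite compressions -/
theorem s_POSF : Pool.Agent.H252.MD.S_POSF := by
  intro X _ _ _ _ B _ _ _ n ι u e E h hfaith T hT hW
  set N : B := T⁻ with hN
  have hN0 : 0 ≤ N := CFC.negPart_nonneg T
  have hdec : T⁺ - N = T := CFC.posPart_sub_negPart T hT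
  have hNs : star N = N := (IsSelfAdjoint.of_nonneg hN0).star_eq
  have h1 : star N * T * N = -(N * N * N) := by
    have h2 : T⁺ * N = 0 := CFC.posPart_mul_negPart T
    calc star N * T * N = N * (T⁺ - N) * N := by rw [hNs, hdec]
      _ = N * (T⁺ * N) - N * N * N := by noncomm_ring
      _ = _ := by rw [h2, mul_zero, zero_sub]
  let b : B := CFC.sqrt N * N
  have hsq : CFC.sqrt N * CFC.sqrt N = N := CFC.sqrt_mul_sqrt_self N hN0
  have hss : star (CFC.sqrt N) = CFC.sqrt N :=
    (IsSelfAdjoint.of_nonneg (CFC.sqrt_nonneg N)).star_eq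
  have hb : star b * b = N * N * N := by
    show star (CFC.sqrt N * N) * (CFC.sqrt N * N) = _
    rw [star_mul, hss, hNs]
    calc N * CFC.sqrt N * (CFC.sqrt N * N) = N * (CFC.sqrt N * CFC.sqrt N) * N := by noncomm_ring
      _ = _ := by rw [hsq]
  have hb0 : b = 0 := by
    apply hfaith
    intro k
    ext x
    have h2 : 0 ≤ E k k (star b * b) x := h.pos k b x
    have h3 := pos_all h T hT hW N k x
    rw [h1, ← hb, map_neg, ContinuousMap.neg_apply] at h3
    have h4 : E k k (star b * b) x ≤ 0 := by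
      have := neg_nonneg.1 h3
      exact this
    exact le_antisymm h4 h2
  have hN3 : N * N * N = 0 := by rw [← hb, hb0, mul_zero]
  have hN2 : N * N = 0 := by
    rw [← CStarRing.star_mul_self_eq_zero_iff, star_mul, hNs, ← mul_assoc, hN3, zero_mul]
  have hNz : N = 0 := by
    rw [← CStarRing.star_mul_self_eq_zero_iff, hNs, hN2]
  rw [← hdec, hNz, sub_zero]
  exact CFC.posPart_nonneg T

end Pool.Agent.H200.MD
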